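import Mathlib

set_option autoImplicit false

open Filter Topology Metric Complex

namespace Pool.Agent.Results.MP_dfd3b8_an.NotSharp

/-- The class `M_{α,β}` (at `z = 0` the defining inequality reads `1 > (α + β) / 2`). -/
def InM (α β : ℝ) (f : ℂ → ℂ) : Prop :=
  DifferentiableOn ℂ f (ball 0 1) ∧ f 0 = 0 ∧ deriv f 0 = 1 ∧ (α + β) / 2 < 1 ∧
    ∀ z ∈ ball (0 : ℂ) 1, (1 - α - β ≠ 0 → deriv f z ≠ 0) ∧ (z ≠ 0 → (β ≠ 0 → f z ≠ 0) ∧
      (α + β) / 2 < (α * (f z / z) + β * (z * deriv f z / f z) +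
        (1 - α - β) * (1 + z * iteratedDeriv 2 f z / deriv f z)).re)

/-- The Fekete–Szegő functional `a₃ - λ a₂²`. -/
noncomputable def Phi (f : ℂ → ℂ) (l : ℂ) : ℂ :=
  iteratedDeriv 3 f 0 / (Nat.factorial 3) - l * (iteratedDeriv 2 f 0 / (Nat.factorial 2)) ^ 2

theorem result : ∃ α β : ℝ, α + β < 2 ∧ 5 * α + 4 * β < 6 ∧ ∃ (l : ℂ) (c : ℝ),
    c < max ((2 - α - β) / (6 - 5 * α - 4 * β)) ‖1 - l‖ ∧ ∀ f, InM α β f → ‖Phi f l‖ ≤ c := by
  refine ⟨199 / 100, -(99 / 100), by norm_num, by norm_num, 0, 20, by norm_num, ?_⟩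
  rintro f ⟨hf, h0, h1, -, hg⟩
  have hu : DifferentiableOn ℂ (dslope f 0) (ball 0 1) :=
    (differentiableOn_dslope (ball_mem_nhds _ one_pos)).2 hf
  have hfu : ∀ z, f z = z * dslope f 0 z := fun z => by
    simpa [h0] using (sub_smul_dslope f 0 z).symm
  have hu0 : dslope f 0 0 = 1 := by simpa using h1
  generalize dslope f 0 = u at *
  have hpos : ∀ z ∈ ball (0 : ℂ) 1, 0 < (u z).re := by
    by_contra h
    push Not at h
    obtain ⟨w, hw, hw'⟩ := h
    have hsub : closedBall (0 : ℂ) ‖w‖ ⊆ ball 0 1 := closedBall_subset_ball (by simpa using hw)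
    have hc : ContinuousOn (fun z => (u z).re) (closedBall 0 ‖w‖) :=
      continuous_re.comp_continuousOn (hu.continuousOn.mono hsub)
    obtain ⟨z, ⟨hz, hz'⟩, hmin⟩ := ((isCompact_closedBall (0 : ℂ) ‖w‖).of_isClosed_subset
      (hc.preimage_isClosed_of_isClosed isClosed_closedBall (isClosed_Iic (a := 0)))
      Set.inter_subset_left).exists_isMinOn ⟨w, by simp, hw'⟩ continuous_norm.continuousOn
    have hz0 : z ≠ 0 := by rintro rfl; simp [hu0] at hz'; linarith
    have hzw := closedBall_subset_closedBall (x := (0 : ℂ)) (mem_closedBall_zero_iff.1 hz)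
    have hge : ∀ y ∈ closedBall (0 : ℂ) ‖z‖, 0 ≤ (u y).re := by
      rw [← closure_ball _ (norm_ne_zero_iff.2 hz0)]
      refine fun y hy => le_on_closure (f := fun _ => (0 : ℝ)) (g := fun y => (u y).re) (s := ball 0 ‖z‖)
        (fun x hx => ?_) continuousOn_const
        (by rw [closure_ball _ (norm_ne_zero_iff.2 hz0)]; exact hc.mono hzw) hy
      by_contra h
      exact (mem_ball_zero_iff.1 hx).not_ge
        (hmin ⟨hzw (ball_subset_closedBall hx), (not_le.1 h).le⟩)
    have hre : (u z).re = 0 := le_antisymm hz' (hge z (by simp))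
    have hd := (hu.differentiableAt (isOpen_ball.mem_nhds (hsub hz))).hasDerivAt
    have h2 : HasDerivAt (fun t : ℝ => (u (z * exp (t * I))).re) ((deriv u z * (z * I)).re) 0 := by
      have a1 : HasDerivAt (fun t : ℂ => z * exp (t * I)) (z * I) ((0 : ℝ) : ℂ) := by
        simpa using (((hasDerivAt_id (0 : ℂ)).mul_const I).cexp).const_mul z
      exact (HasDerivAt.comp_of_eq _ hd a1 (by simp)).real_of_complex
    have h3 := IsLocalMin.hasDerivAt_eq_zero (Eventually.of_forall fun t => by
      simpa [hre] using hge (z * exp (t * I)) (by simp)) h2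
    obtain ⟨-, h4⟩ := hg z (hsub hz)
    obtain ⟨h5, h6⟩ := h4 hz0
    have h7 : deriv f z = u z + z * deriv u z := by
      rw [funext hfu]; simpa using ((hasDerivAt_id z).fun_mul hd).deriv
    have h8 : u z ≠ 0 := right_ne_zero_of_mul (hfu z ▸ h5 (by norm_num))
    have h9 : z * deriv f z / f z = 1 + z * deriv u z / u z := by rw [h7, hfu]; field_simp
    have h10 : (z * deriv u z).im = 0 := by simp at h3 ⊢; linarith
    rw [h9, hfu, mul_div_cancel_left₀ _ hz0] at h6
    generalize z * deriv u z = v at *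
    simp [hre, div_re, h10] at h6
    norm_num at h6
  have hb := norm_iteratedDeriv_le_of_forall_mem_sphere_norm_le (f := f) (c := 0) (C := 5 / 2) 3
    (R := 1 / 2) (by norm_num) (hf.diffContOnCl_ball (closedBall_subset_ball (by norm_num)))
    fun z hz => by
      rw [mem_sphere_zero_iff_norm] at hz
      have := borelCaratheodory (f := fun z => -u z) (z := z) one_pos hu.neg
        (fun y hy => by have := hpos y hy; simp; linarith) one_pos
        (by simp [hz]; norm_num)
      rw [hfu, norm_mul, hz]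
      simp only [hz, hu0, norm_neg, norm_one] at this
      linarith
  simp only [Phi, zero_mul, sub_zero, norm_div, Complex.norm_natCast]
  rw [div_le_iff₀ (by positivity)]
  exact hb.trans (by norm_num [Nat.factorial])

end Pool.Agent.Results.MP_dfd3b8_an.NotSharp
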